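import Mathlib

set_option autoImplicit false

open Set Metric Pointwise

namespace Pool.Agent.Results.MP_a85856_gt.Counter

instance : Fact ((1 : ENNReal) ≤ 4) := ⟨by norm_num⟩

/-- `ℝ^4225` with the `ℓ₄` norm. -/
abbrev E := PiLp 4 fun _ : Fin (65 * 65) => ℝ

/-- Circumradius with respect to the `ℓ₄` unit ball. -/
noncomputable def R (K : Set E) : ℝ :=
  sInf {l | 0 ≤ l ∧ ∃ t : E, K ⊆ t +ᵥ l • closedBall (0 : E) 1}

lemma nrm (x : E) : ‖x‖ ^ 4 = ∑ i : Fin 65, ∑ j : Fin 65, x (finProdFinEquiv (i, j)) ^ 4 := by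
  rw [PiLp.norm_eq_of_nat 4 (by norm_num), ← Fintype.sum_prod_type'
    fun i j => x (finProdFinEquiv (i, j)) ^ 4, finProdFinEquiv.sum_comp fun k => x k ^ 4,
    one_div, Real.rpow_inv_natCast_pow (by positivity) (by norm_num)]
  simp [Even.pow_abs (by decide : Even 4)]

lemma ball_eq (t : E) {l : ℝ} (h : 0 ≤ l) : t +ᵥ l • closedBall (0 : E) 1 = closedBall t l := by
  rw [_root_.smul_closedBall _ _ zero_le_one, Metric.vadd_closedBall]; simp [abs_of_nonneg h]

noncomputable def U (f : Fin 65 × Fin 65 → Fin 65) (k : Fin 65) : E :=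
  WithLp.toLp 4 fun a => if f (finProdFinEquiv.symm a) = k then 1 else 0

lemma sum_ite (a b : ℝ) (k : Fin 65) : ∑ i, (if i = k then a else b) = a + 64 * b := by
  rw [Finset.sum_ite]; simp [Finset.filter_ne', Finset.filter_eq']

lemma lower (f : Fin 65 × Fin 65 → Fin 65) : 832 / 25 ≤ R (convexHull ℝ (range (U f))) ^ 4 := by
  have h : (832 / 25 : ℝ) ^ ((4 : ℕ) : ℝ)⁻¹ ≤ R (convexHull ℝ (range (U f))) := by
    obtain ⟨r, hr⟩ := (finite_range (U f)).isBounded.subset_closedBall 0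
    refine le_csInf ⟨max r 0, le_max_right _ _, 0, ?_⟩ fun l ⟨h0, t, h⟩ => ?_
    · rw [ball_eq _ (le_max_right _ _)]
      exact convexHull_min (hr.trans (closedBall_subset_closedBall (le_max_left _ _)))
        (convex_closedBall _ _)
    rw [ball_eq _ h0] at h
    rw [Real.rpow_inv_le_iff_of_pos (by positivity) h0 (by positivity), Real.rpow_natCast]
    have a : ∑ k, ‖U f k - t‖ ^ 4 ≤ ∑ _k : Fin 65, l ^ 4 := Finset.sum_le_sum fun k _ =>
      pow_le_pow_left₀ (norm_nonneg _)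
        (mem_closedBall_iff_norm.1 (h (subset_convexHull ℝ _ ⟨k, rfl⟩))) 4
    have b : ∑ _i : Fin 65, ∑ _j : Fin 65, (64 / 125 : ℝ) ≤ ∑ k, ‖U f k - t‖ ^ 4 := by
      simp only [nrm]
      rw [Finset.sum_comm (β := ℝ) (f := fun k i => ∑ j, (U f k - t) (finProdFinEquiv (i, j)) ^ 4)]
      refine Finset.sum_le_sum fun i _ => ?_
      rw [Finset.sum_comm]
      refine Finset.sum_le_sum fun j _ => ?_
      simp only [U, PiLp.sub_apply, Equiv.symm_apply_apply, ite_sub, ite_pow, eq_comm (a := f _),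
        sum_ite]
      generalize t _ = c
      nlinarith [sq_nonneg ((c - 1 / 5) * (c + 1 / 6)), sq_nonneg (c - 1 / 5)]
    simp at a b
    linarith
  have := pow_le_pow_left₀ (by positivity) h 4
  rwa [Real.rpow_inv_natCast_pow (by positivity) (by norm_num)] at this

theorem result : ∃ K₁ K₂ : Set E, K₁.Nonempty ∧ IsCompact K₁ ∧ Convex ℝ K₁ ∧
    K₂.Nonempty ∧ IsCompact K₂ ∧ Convex ℝ K₂ ∧
    R (K₁ + K₂) < (R K₁ ^ 4 + R K₂ ^ 4) ^ (1 / 4 : ℝ) := by
  refine ⟨_, _, (range_nonempty (U Prod.fst)).convexHull, (finite_range _).isCompact_convexHull _,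
    convex_convexHull ℝ _, (range_nonempty (U Prod.snd)).convexHull,
    (finite_range _).isCompact_convexHull _, convex_convexHull ℝ _, ?_⟩
  have h0 : (0 : ℝ) ≤ 66 ^ (4 : ℝ)⁻¹ := by positivity
  refine lt_of_le_of_lt (b := 66 ^ (4 : ℝ)⁻¹)
    (csInf_le ⟨0, fun _ h => h.1⟩ ⟨h0, WithLp.toLp 4 fun _ => 1 / 4, ?_⟩) ?_
  · rw [ball_eq _ h0, ← convexHull_add]
    refine convexHull_min ?_ (convex_closedBall _ _)
    rintro _ ⟨_, ⟨k, rfl⟩, _, ⟨l, rfl⟩, rfl⟩
    rw [mem_closedBall_iff_norm, Real.le_rpow_inv_iff_of_pos (norm_nonneg _) (by norm_num)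
      (by norm_num), show (4 : ℝ) = (4 : ℕ) by norm_num, Real.rpow_natCast, nrm]
    simp only [U, PiLp.sub_apply, PiLp.add_apply, Equiv.symm_apply_apply, add_ite, ite_sub,
      ite_pow, sum_ite]
    rw [Finset.sum_congr (g := fun x => if x = k then 7585 / 256 else 145 / 256) rfl fun x _ => by
      split_ifs <;> norm_num, sum_ite]
    norm_num
  · rw [one_div]
    exact Real.rpow_lt_rpow (by norm_num) (by linarith [lower Prod.fst, lower Prod.snd])
      (by norm_num)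

end Pool.Agent.Results.MP_a85856_gt.Counter
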